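import Mathlib

set_option autoImplicit false

/-!
Counting polynomials over `ZMod p` of degree `< m` such that each `P` in a finite set of monic
irreducible polynomials satisfies `P ∣ h → P ^ 2 ∣ h`.
-/

namespace Pool.Agent.Work.MP_53cd62_co

open Polynomial

variable {p : ℕ} [Fact p.Prime]

/-- cardinality of the space of polynomials of degree `< n`. -/
lemma card_degreeLT (n : ℕ) : Nat.card (degreeLT (ZMod p) n) = p ^ n := by
  rw [Nat.card_congr (degreeLTEquiv (ZMod p) n).toEquiv, Nat.card_fun]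
  simp

instance finite_degreeLT (n : ℕ) : Finite (degreeLT (ZMod p) n) :=
  Finite.of_equiv _ (degreeLTEquiv (ZMod p) n).symm.toEquiv

/-- admissible pairs of residues. -/
def Adm (p : ℕ) [Fact p.Prime] (d : ℕ) : Type :=
  {ab : degreeLT (ZMod p) d × degreeLT (ZMod p) d // ab.1 = 0 → ab.2 = 0}

instance finite_adm (d : ℕ) : Finite (Adm p d) := by
  unfold Adm; infer_instance

lemma card_adm (d : ℕ) : Nat.card (Adm p d) = p ^ (2 * d) - p ^ d + 1 := by
  classical
  have : Fintype (degreeLT (ZMod p) d) := Fintype.ofFinite _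
  have hc : Fintype.card (degreeLT (ZMod p) d) = p ^ d := by
    rw [← Nat.card_eq_fintype_card, card_degreeLT]
  have hpos : 1 ≤ p ^ d := Nat.one_le_pow _ _ (Fact.out : p.Prime).pos
  -- complement: `a = 0`, `b ≠ 0`
  have h1 : Nat.card (Adm p d) =
      (Finset.univ.filter (fun ab : degreeLT (ZMod p) d × degreeLT (ZMod p) d =>
        ab.1 = 0 → ab.2 = 0)).card := by
    rw [← Fintype.card_subtype, ← Nat.card_eq_fintype_card]; rfl
  have h2 : (Finset.univ.filter (fun ab : degreeLT (ZMod p) d × degreeLT (ZMod p) d =>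
        ¬ (ab.1 = 0 → ab.2 = 0))).card = p ^ d - 1 := by
    have : (Finset.univ.filter (fun ab : degreeLT (ZMod p) d × degreeLT (ZMod p) d =>
        ¬ (ab.1 = 0 → ab.2 = 0))) = ({0} : Finset (degreeLT (ZMod p) d)) ×ˢ
          (Finset.univ.erase (0 : degreeLT (ZMod p) d)) := by
      ext ⟨a, b⟩
      simp only [Finset.mem_filter, Finset.mem_univ, true_and, Finset.mem_product,
        Finset.mem_singleton, Finset.mem_erase, and_true]
      tauto
    rw [this, Finset.card_product, Finset.card_singleton, Finset.card_erase_of_mem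
      (Finset.mem_univ _), Finset.card_univ, hc, one_mul]
  have h3 := Finset.card_filter_add_card_filter_not (s := (Finset.univ :
      Finset (degreeLT (ZMod p) d × degreeLT (ZMod p) d))) (fun ab => ab.1 = 0 → ab.2 = 0)
  rw [Finset.card_univ, Fintype.card_prod, hc, h2, ← h1] at h3
  have h4 : p ^ (2 * d) = p ^ d * p ^ d := by rw [two_mul, pow_add]
  have h5 : p ^ d ≤ p ^ d * p ^ d := Nat.le_mul_of_pos_left _ (by omega)
  rw [h4]
  omega

/-- The sifted set: polynomials of degree `< m` such that for `P` in `s`, `P ∣ h → P ^ 2 ∣ h`. -/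
def Sift (p : ℕ) [Fact p.Prime] (s : Finset (ZMod p)[X]) (m : ℕ) : Type :=
  {h : degreeLT (ZMod p) m // ∀ P ∈ s, P ∣ (h : (ZMod p)[X]) → P ^ 2 ∣ (h : (ZMod p)[X])}

/-- The residue map. -/
noncomputable def resMap (s : Finset (ZMod p)[X]) (hs : ∀ P ∈ s, P.Monic) (m D : ℕ)
    (hD : (∏ P ∈ s, P ^ 2).natDegree = D) (hDm : D ≤ m) (h : Sift p s m) :
    degreeLT (ZMod p) (m - D) × (∀ P : s, Adm p (P : (ZMod p)[X]).natDegree) :=
  (⟨(h.1 : (ZMod p)[X]) /ₘ (∏ P ∈ s, P ^ 2), by
      have hM : (∏ P ∈ s, P ^ 2).Monic := monic_prod_of_monic _ _ (fun P hP => (hs P hP).pow 2)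
      have hh := h.1.2
      rw [mem_degreeLT] at hh ⊢
      by_cases h0 : (h.1 : (ZMod p)[X]) /ₘ (∏ P ∈ s, P ^ 2) = 0
      · rw [h0, degree_zero]; exact WithBot.bot_lt_coe _
      · have h1 : (h.1 : (ZMod p)[X]) ≠ 0 := by
          intro h1; apply h0; rw [h1, zero_divByMonic]
        rw [degree_eq_natDegree h0, natDegree_divByMonic _ hM, hD]
        rw [degree_eq_natDegree h1] at hh
        have hh' : (h.1 : (ZMod p)[X]).natDegree < m := by exact_mod_cast hh
        have : D ≤ (h.1 : (ZMod p)[X]).natDegree := by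
          by_contra hlt
          push Not at hlt
          apply h0
          rw [divByMonic_eq_zero_iff hM, degree_eq_natDegree h1, degree_eq_natDegree hM.ne_zero, hD]
          exact_mod_cast hlt
        have : (h.1 : (ZMod p)[X]).natDegree - D < m - D := by omega
        exact_mod_cast this⟩,
   fun P => ⟨(⟨(h.1 : (ZMod p)[X]) %ₘ P, by
      rw [mem_degreeLT, ← degree_eq_natDegree (hs P P.2).ne_zero]
      exact degree_modByMonic_lt _ (hs P P.2)⟩,
      ⟨((h.1 : (ZMod p)[X]) /ₘ P) %ₘ P, by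
      rw [mem_degreeLT, ← degree_eq_natDegree (hs P P.2).ne_zero]
      exact degree_modByMonic_lt _ (hs P P.2)⟩), by
      intro h0
      have h0' : (h.1 : (ZMod p)[X]) %ₘ (P : (ZMod p)[X]) = 0 := congrArg Subtype.val h0
      have hP := hs P P.2
      have h1 : (P : (ZMod p)[X]) ∣ (h.1 : (ZMod p)[X]) := (modByMonic_eq_zero_iff_dvd hP).mp h0'
      have h2 := h.2 P P.2 h1
      apply Subtype.ext
      change ((h.1 : (ZMod p)[X]) /ₘ P) %ₘ P = 0
      rw [modByMonic_eq_zero_iff_dvd hP]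
      have h3 := modByMonic_add_div (h.1 : (ZMod p)[X]) (P : (ZMod p)[X])
      rw [h0', zero_add] at h3
      rw [← h3, pow_two] at h2
      exact (mul_dvd_mul_iff_left hP.ne_zero).mp h2⟩)

lemma resMap_injective (s : Finset (ZMod p)[X]) (hs : ∀ P ∈ s, P.Monic)
    (hirr : ∀ P ∈ s, Irreducible P) (m D : ℕ)
    (hD : (∏ P ∈ s, P ^ 2).natDegree = D) (hDm : D ≤ m) :
    Function.Injective (resMap s hs m D hD hDm) := by
  intro h h' heq
  have hM : (∏ P ∈ s, P ^ 2).Monic := monic_prod_of_monic _ _ (fun P hP => (hs P hP).pow 2)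
  have h1 : (h.1 : (ZMod p)[X]) /ₘ (∏ P ∈ s, P ^ 2) = (h'.1 : (ZMod p)[X]) /ₘ (∏ P ∈ s, P ^ 2) :=
    congrArg (fun x => ((x.1 : degreeLT (ZMod p) (m - D)) : (ZMod p)[X])) heq
  have h2 : (∏ P ∈ s, P ^ 2) ∣ (h.1 : (ZMod p)[X]) - (h'.1 : (ZMod p)[X]) := by
    apply Finset.prod_dvd_of_coprime
    · intro P hP Q hQ hPQ
      have hcop : IsCoprime P Q := by
        refine (hirr P hP).coprime_iff_not_dvd.mpr ?_
        intro hdvd
        exact hPQ (eq_of_monic_of_associated (hs P hP) (hs Q hQ)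
          ((hirr P hP).associated_of_dvd (hirr Q hQ) hdvd))
      exact hcop.pow
    · intro P hP
      have h3 := congrArg (fun x => x.2 ⟨P, hP⟩) heq
      have h4 : (h.1 : (ZMod p)[X]) %ₘ P = (h'.1 : (ZMod p)[X]) %ₘ P :=
        congrArg (fun x => ((x.1.1 : degreeLT (ZMod p) _) : (ZMod p)[X])) h3
      have h5 : ((h.1 : (ZMod p)[X]) /ₘ P) %ₘ P = ((h'.1 : (ZMod p)[X]) /ₘ P) %ₘ P :=
        congrArg (fun x => ((x.1.2 : degreeLT (ZMod p) _) : (ZMod p)[X])) h3
      have e1 := modByMonic_add_div (h.1 : (ZMod p)[X]) P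
      have e2 := modByMonic_add_div (h'.1 : (ZMod p)[X]) P
      have e3 : P ∣ ((h.1 : (ZMod p)[X]) /ₘ P) - ((h'.1 : (ZMod p)[X]) /ₘ P) := by
        rw [← modByMonic_eq_zero_iff_dvd (hs P hP), sub_modByMonic, h5, sub_self]
      obtain ⟨c, hc⟩ := e3
      refine ⟨c, ?_⟩
      rw [← e1, ← e2, h4]
      linear_combination P * hc
  have h3 : (h.1 : (ZMod p)[X]) %ₘ (∏ P ∈ s, P ^ 2) = (h'.1 : (ZMod p)[X]) %ₘ (∏ P ∈ s, P ^ 2) :=
    modByMonic_eq_of_dvd_sub hM h2
  apply Subtype.ext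
  apply Subtype.ext
  rw [← modByMonic_add_div (h.1 : (ZMod p)[X]) (∏ P ∈ s, P ^ 2),
    ← modByMonic_add_div (h'.1 : (ZMod p)[X]) (∏ P ∈ s, P ^ 2), h1, h3]

instance finite_sift (s : Finset (ZMod p)[X]) (m : ℕ) : Finite (Sift p s m) := by
  unfold Sift; infer_instance

/-- The sieve bound. -/
lemma card_sift_le (s : Finset (ZMod p)[X]) (hs : ∀ P ∈ s, P.Monic)
    (hirr : ∀ P ∈ s, Irreducible P) (m : ℕ)
    (hDm : 2 * ∑ P ∈ s, P.natDegree ≤ m) :
    Nat.card (Sift p s m) ≤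
      p ^ (m - 2 * ∑ P ∈ s, P.natDegree) * ∏ P ∈ s, (p ^ (2 * P.natDegree) - p ^ P.natDegree + 1) := by
  have hD : (∏ P ∈ s, P ^ 2).natDegree = 2 * ∑ P ∈ s, P.natDegree := by
    rw [natDegree_prod_of_monic _ _ (fun P hP => (hs P hP).pow 2), Finset.mul_sum]
    exact Finset.sum_congr rfl (fun P hP => (hs P hP).natDegree_pow 2)
  have h1 := Nat.card_le_card_of_injective _ (resMap_injective s hs hirr m _ hD hDm)
  rw [Nat.card_prod, Nat.card_pi, card_degreeLT] at h1
  refine h1.trans (le_of_eq ?_)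
  congr 1
  rw [← Finset.prod_coe_sort s (fun P => p ^ (2 * P.natDegree) - p ^ P.natDegree + 1)]
  exact Finset.prod_congr rfl (fun P _ => card_adm _)

end Pool.Agent.Work.MP_53cd62_co
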