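import Mathlib

set_option autoImplicit false

/-!
Many monic irreducible polynomials of odd prime degree over `ZMod p`, and the resulting
smallness of the sieve product.
-/

namespace Pool.Agent.Work.MP_53cd62_co

open Polynomial

variable {p : ℕ} [Fact p.Prime]

/-- For each prime `l` there is a finite set of monic irreducible polynomials of degree `l`, with
at least `(p ^ l - p) / l` elements. -/
lemma exists_irred_set (l : ℕ) (hl : l.Prime) :
    ∃ s : Finset (ZMod p)[X], (∀ P ∈ s, P.Monic ∧ Irreducible P ∧ P.natDegree = l) ∧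
      p ^ l - p ≤ l * s.card := by
  classical
  let L := GaloisField p l
  have hfin : Finite L := by
    apply Nat.finite_of_card_ne_zero
    rw [GaloisField.card p l hl.ne_zero]
    exact pow_ne_zero _ (Fact.out : p.Prime).ne_zero
  have : Fintype L := Fintype.ofFinite L
  have hcard : Fintype.card L = p ^ l := by
    rw [← Nat.card_eq_fintype_card, GaloisField.card p l hl.ne_zero]
  have hfr : Module.finrank (ZMod p) L = l := by
    exact GaloisField.finrank p hl.ne_zero
  have hint : ∀ x : L, IsIntegral (ZMod p) x := fun x => Algebra.IsIntegral.isIntegral x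
  -- elements not in the prime field
  let T : Finset L := Finset.univ \ (Finset.univ.image (algebraMap (ZMod p) L))
  have hT : p ^ l - p ≤ T.card := by
    have h1 : (Finset.univ.image (algebraMap (ZMod p) L)).card ≤ p := by
      refine Finset.card_image_le.trans ?_
      rw [Finset.card_univ, ZMod.card]
    have h2 := Finset.le_card_sdiff (Finset.univ.image (algebraMap (ZMod p) L)) (Finset.univ : Finset L)
    rw [Finset.card_univ, hcard] at h2
    exact (Nat.sub_le_sub_left h1 _).trans h2
  refine ⟨T.image (fun x => minpoly (ZMod p) x), ?_, ?_⟩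
  · intro P hP
    obtain ⟨x, hx, rfl⟩ := Finset.mem_image.mp hP
    refine ⟨minpoly.monic (hint x), minpoly.irreducible (hint x), ?_⟩
    have hdvd := minpoly.degree_dvd (hint x)
    rw [hfr] at hdvd
    rcases (Nat.dvd_prime hl).mp hdvd with h | h
    · exfalso
      rw [minpoly.natDegree_eq_one_iff] at h
      obtain ⟨y, hy⟩ := h
      have : x ∈ (Finset.univ.image (algebraMap (ZMod p) L)) :=
        Finset.mem_image.mpr ⟨y, Finset.mem_univ _, hy⟩
      exact (Finset.mem_sdiff.mp hx).2 this
    · exact h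
  · refine hT.trans ?_
    apply Finset.card_le_mul_card_image
    intro P hP
    obtain ⟨x, hx, rfl⟩ := Finset.mem_image.mp hP
    have hne : (minpoly (ZMod p) x).map (algebraMap (ZMod p) L) ≠ 0 :=
      (Polynomial.map_ne_zero_iff (algebraMap (ZMod p) L).injective).mpr (minpoly.ne_zero (hint x))
    have hsub : {a ∈ T | minpoly (ZMod p) a = minpoly (ZMod p) x} ⊆
        ((minpoly (ZMod p) x).map (algebraMap (ZMod p) L)).roots.toFinset := by
      intro a ha
      rw [Multiset.mem_toFinset, mem_roots hne, IsRoot.def, eval_map_algebraMap,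
        ← (Finset.mem_filter.mp ha).2]
      exact minpoly.aeval _ _
    refine (Finset.card_le_card hsub).trans ?_
    refine (Multiset.toFinset_card_le _).trans ?_
    refine (card_roots' _).trans ?_
    rw [natDegree_map]
    have hdvd := minpoly.degree_dvd (hint x)
    rw [hfr] at hdvd
    exact Nat.le_of_dvd hl.pos hdvd

/-- one factor of the sieve product -/
lemma factor_le {N : ℝ} (hN : 3 ≤ N) : (N ^ 2 - N + 1) / N ^ 2 ≤ Real.exp (-(2 / 3) / N) := by
  have h1 := Real.add_one_le_exp (-(2 / 3) / N)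
  refine le_trans ?_ h1
  have hN0 : 0 < N := by linarith
  rw [div_add_one hN0.ne', div_le_div_iff₀ (by positivity) hN0]
  nlinarith [mul_pos hN0 hN0]

/-- Divergence of the sum of reciprocals of odd primes. -/
lemma exists_odd_primes (B : ℝ) : ∃ T : Finset ℕ, (∀ l ∈ T, l.Prime ∧ 3 ≤ l) ∧
    B ≤ ∑ l ∈ T, (1 : ℝ) / l := by
  classical
  by_contra hcon
  push Not at hcon
  apply Nat.Primes.not_summable_one_div
  apply summable_of_sum_le (c := B + 1 / 2)
  · intro q; positivity
  · intro u
    have hT := hcon ((u.image (fun q : Nat.Primes => (q : ℕ))).erase 2) (by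
      intro l hl
      rw [Finset.mem_erase, Finset.mem_image] at hl
      obtain ⟨h2, q, hq, rfl⟩ := hl
      refine ⟨q.2, ?_⟩
      have := q.2.two_le
      omega)
    have h1 : ∑ q ∈ u, (1 : ℝ) / (q : ℕ) = ∑ l ∈ u.image (fun q : Nat.Primes => (q : ℕ)), (1 : ℝ) / l := by
      rw [Finset.sum_image]
      intro a _ b _ hab
      exact Subtype.ext hab
    rw [h1]
    by_cases h2 : 2 ∈ u.image (fun q : Nat.Primes => (q : ℕ))
    · have := Finset.sum_erase_add (u.image (fun q : Nat.Primes => (q : ℕ))) (fun l : ℕ => (1 : ℝ) / l) h2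
      rw [← this]
      norm_num at hT ⊢
      linarith
    · rw [Finset.erase_eq_of_notMem h2] at hT
      linarith

/-- The sieve product can be made arbitrarily small. -/
lemma exists_small_product (hp3 : 3 ≤ p) (c : ℝ) (hc : 0 < c) :
    ∃ s : Finset (ZMod p)[X], (∀ P ∈ s, P.Monic ∧ Irreducible P ∧ Odd P.natDegree) ∧
      ∏ P ∈ s, (((p : ℝ) ^ P.natDegree) ^ 2 - (p : ℝ) ^ P.natDegree + 1) / ((p : ℝ) ^ P.natDegree) ^ 2
        < c := by
  classical
  -- choose B with exp (-(2/3) * (8/9) * B) < c
  obtain ⟨B, hB⟩ : ∃ B : ℝ, Real.exp (-(16 / 27) * B) < c := by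
    refine ⟨-(27 / 16) * Real.log (c / 2), ?_⟩
    have : -(16 / 27 : ℝ) * (-(27 / 16) * Real.log (c / 2)) = Real.log (c / 2) := by ring
    rw [this, Real.exp_log (by positivity)]
    linarith
  obtain ⟨T, hT, hTB⟩ := exists_odd_primes B
  have hI : ∀ l : ℕ, ∃ s : Finset (ZMod p)[X], l.Prime →
      ((∀ P ∈ s, P.Monic ∧ Irreducible P ∧ P.natDegree = l) ∧ p ^ l - p ≤ l * s.card) := by
    intro l
    by_cases hl : l.Prime
    · obtain ⟨s, hs⟩ := exists_irred_set (p := p) l hl
      exact ⟨s, fun _ => hs⟩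
    · exact ⟨∅, fun h => absurd h hl⟩
  choose I hI using hI
  have hp3' : (3 : ℝ) ≤ p := by exact_mod_cast hp3
  have hp0 : (0 : ℝ) < p := by linarith
  refine ⟨T.biUnion I, ?_, ?_⟩
  · intro P hP
    obtain ⟨l, hl, hPl⟩ := Finset.mem_biUnion.mp hP
    obtain ⟨hl1, hl2⟩ := hT l hl
    obtain ⟨h1, h2, h3⟩ := (hI l hl1).1 P hPl
    refine ⟨h1, h2, ?_⟩
    rw [h3]
    exact hl1.odd_of_ne_two (by omega)
  · refine lt_of_le_of_lt ?_ hB
    have hle : ∏ P ∈ T.biUnion I, (((p : ℝ) ^ P.natDegree) ^ 2 - (p : ℝ) ^ P.natDegree + 1) /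
          ((p : ℝ) ^ P.natDegree) ^ 2 ≤
        ∏ P ∈ T.biUnion I, Real.exp (-(2 / 3) / ((p : ℝ) ^ P.natDegree)) := by
      apply Finset.prod_le_prod
      · intro P _
        have : 0 < (p : ℝ) ^ P.natDegree := by positivity
        apply div_nonneg _ (by positivity)
        nlinarith [sq_nonneg ((p : ℝ) ^ P.natDegree - 1)]
      · intro P hP
        obtain ⟨l, hl, hPl⟩ := Finset.mem_biUnion.mp hP
        obtain ⟨hl1, hl2⟩ := hT l hl
        obtain ⟨h1, h2, h3⟩ := (hI l hl1).1 P hPl
        apply factor_le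
        rw [h3]
        calc (3 : ℝ) ≤ (p : ℝ) ^ 1 := by simpa using hp3'
          _ ≤ (p : ℝ) ^ l := pow_le_pow_right₀ (by linarith) (by omega)
    refine hle.trans ?_
    rw [← Real.exp_sum, Real.exp_le_exp]
    rw [Finset.sum_biUnion]
    · have hterm : ∀ l ∈ T, ∑ P ∈ I l, -(2 / 3) / ((p : ℝ) ^ P.natDegree) ≤
          -(16 / 27) * ((1 : ℝ) / l) := by
        intro l hl
        obtain ⟨hl1, hl2⟩ := hT l hl
        have e1 : ∑ P ∈ I l, -(2 / 3) / ((p : ℝ) ^ P.natDegree) =
            (I l).card * (-(2 / 3) / ((p : ℝ) ^ l)) := by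
          rw [Finset.sum_congr rfl (fun P hP => by rw [((hI l hl1).1 P hP).2.2]),
            Finset.sum_const, nsmul_eq_mul]
        rw [e1]
        have e2 := (hI l hl1).2
        have hle1 : p ≤ p ^ l := by
          calc p = p ^ 1 := (pow_one p).symm
            _ ≤ p ^ l := Nat.pow_le_pow_right (by omega) (by omega)
        have e3 : (p : ℝ) ^ l - p ≤ l * (I l).card := by
          have : ((p ^ l - p : ℕ) : ℝ) ≤ ((l * (I l).card : ℕ) : ℝ) := by exact_mod_cast e2
          rw [Nat.cast_sub hle1] at this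
          push_cast at this
          exact this
        have e4 : (p : ℝ) * 9 ≤ (p : ℝ) ^ l := by
          calc (p : ℝ) * 9 ≤ (p : ℝ) * (p : ℝ) ^ 2 := by
                apply mul_le_mul_of_nonneg_left _ hp0.le
                nlinarith
            _ = (p : ℝ) ^ 3 := by ring
            _ ≤ (p : ℝ) ^ l := pow_le_pow_right₀ (by linarith) hl2
        have hl0 : (0 : ℝ) < l := by
          have : 0 < l := hl1.pos
          exact_mod_cast this
        have hpl : (0 : ℝ) < (p : ℝ) ^ l := by positivity
        have e5 : (8 / 9) * ((p : ℝ) ^ l) ≤ l * (I l).card := by nlinarith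
        have e6 : (8 / 9) * (1 / (l : ℝ)) ≤ (I l).card / ((p : ℝ) ^ l) := by
          rw [mul_one_div, div_le_div_iff₀ hl0 hpl]
          linarith
        have e7 : ((I l).card : ℝ) * (-(2 / 3) / ((p : ℝ) ^ l)) =
            -(2 / 3) * ((I l).card / ((p : ℝ) ^ l)) := by ring
        rw [e7]
        nlinarith
      refine (Finset.sum_le_sum hterm).trans ?_
      rw [← Finset.mul_sum]
      nlinarith
    · intro a ha b hb hab
      rw [Function.onFun, Finset.disjoint_left]
      intro P hPa hPb
      have ha' := ((hI a (hT a ha).1).1 P hPa).2.2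
      have hb' := ((hI b (hT b hb).1).1 P hPb).2.2
      exact hab (ha'.symm.trans hb')

end Pool.Agent.Work.MP_53cd62_co
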