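import Mathlib

set_option autoImplicit false

/-!
Sums of two squares in `(ZMod p)[X]`, `p ≡ 3 mod 4`: an irreducible polynomial of odd degree which
divides `f ^ 2 + g ^ 2` divides it to the second power.
-/

namespace Pool.Agent.Work.MP_53cd62_co

open Polynomial

/-- odd power of a number which is 3 mod 4 is 3 mod 4. -/
lemma pow_mod_four {p d : ℕ} (hp : p % 4 = 3) (hd : Odd d) : p ^ d % 4 = 3 := by
  obtain ⟨k, rfl⟩ := hd
  induction k with
  | zero => simpa using hp
  | succ k ih =>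
    have : p ^ (2 * (k + 1) + 1) = p ^ (2 * k + 1) * (p * p) := by ring
    rw [this, Nat.mul_mod, ih, Nat.mul_mod p p, hp]

/-- Key algebraic fact. -/
lemma sq_dvd_of_dvd {p : ℕ} [Fact p.Prime] (hp : p % 4 = 3) {P f g : (ZMod p)[X]}
    (hP : Irreducible P) (hodd : Odd P.natDegree) (h : P ∣ f ^ 2 + g ^ 2) :
    P ^ 2 ∣ f ^ 2 + g ^ 2 := by
  have : Fact (Irreducible P) := ⟨hP⟩
  let L := AdjoinRoot P
  have hP0 : P ≠ 0 := hP.ne_zero
  let pb : PowerBasis (ZMod p) L := AdjoinRoot.powerBasis hP0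
  have : Module.Finite (ZMod p) L := pb.finite
  have : Finite L := Module.finite_of_finite (ZMod p)
  have : Fintype L := Fintype.ofFinite L
  have hfr : Module.finrank (ZMod p) L = P.natDegree := by
    rw [pb.finrank]; simp [pb]
  have hcard : Fintype.card L = p ^ P.natDegree := by
    rw [Module.card_eq_pow_finrank (K := ZMod p) (V := L), hfr, ZMod.card]
  have hns : ¬ IsSquare (-1 : L) := by
    rw [FiniteField.isSquare_neg_one_iff, hcard, not_not]
    exact pow_mod_four hp hodd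
  have hzero : (AdjoinRoot.mk P f) ^ 2 + (AdjoinRoot.mk P g) ^ 2 = 0 := by
    rw [← map_pow, ← map_pow, ← map_add]
    exact AdjoinRoot.mk_eq_zero.mpr h
  have hf : AdjoinRoot.mk P f = 0 := by
    by_contra hf
    apply hns
    refine ⟨AdjoinRoot.mk P g / AdjoinRoot.mk P f, ?_⟩
    have hf2 : (AdjoinRoot.mk P f) ^ 2 ≠ 0 := pow_ne_zero 2 hf
    have : (AdjoinRoot.mk P g) ^ 2 = - (AdjoinRoot.mk P f) ^ 2 := by
      linear_combination hzero
    rw [div_mul_div_comm, ← pow_two, ← pow_two, this, neg_div, div_self hf2]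
  have hg : AdjoinRoot.mk P g = 0 := by
    rw [hf] at hzero
    simpa using hzero
  have hf' : P ∣ f := AdjoinRoot.mk_eq_zero.mp hf
  have hg' : P ∣ g := AdjoinRoot.mk_eq_zero.mp hg
  exact dvd_add (pow_dvd_pow_of_dvd hf' 2) (pow_dvd_pow_of_dvd hg' 2)

end Pool.Agent.Work.MP_53cd62_co
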